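import Pool.Agent.Helper21.DGY.Vx
import Pool.Agent.Helper99.MX.Mci
import Pool.Agent.Helper18.MCU.Dvx
import Pool.Agent.Helper52.MW.Ime
import Pool.Agent.Helper32.DGY.Tot

/-! THE LAST CLASS IS CLOSED UNDER SLOW DIAGONALS (row `DGYR` of Helper29/MX/St2). -/

set_option autoImplicit false

namespace Pool.Agent.Helper21.DGY

open Finset Filter Topology Matrix Pool.Agent.Helper69.RK Pool.Agent.Helper31.EC Pool.Agent.Helper31.EC.Sp
open Pool.Agent.Helper40.EL Pool.Agent.Helper89.LX Pool.Agent.Helper84.MT Pool.Agent.Helper49.MD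
open Pool.Agent.Helper36.AM Pool.Agent.Helper32.DGY Pool.Agent.Helper29.MX
open Pool.Agent.Helper52.MW (Bfn AlF AlB AllE_self)
open Pool.Agent.Helper95.VIS (rdm)
open Pool.Agent.Helper99.MX (gfx mcn mci mcc can_im)
open Pool.Agent.Helper81.CPY (frmI ple_im)
open Pool.Agent.Helper18.MCU (clF dfx_at vsx_at mc_uniq)
open Pool.Agent.Helper3.LF (Mon)
open Pool.Agent.Helper94.SEL (Ctx)

noncomputable section

variable {N : ℕ} {ι : Type} {S T : Sp} {E : ℕ → ℕ} {w : Fin N → ℝ} {ρ : ℝ} {D κ : ℕ} {c c' e : ℝ}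

theorem pt_rbot (s : MSys S N E ι) : Pt s (rbot S) := Eventually.of_forall fun k ω ω' _ _ _ hw => by
  have e1 : ω = ω' := hw
  rw [e1]

theorem lit_rbot (X : Rsl S) : ∀ᶠ k in UF, rbot S k ⊓ (S.F k).Z ≤ X k := Eventually.of_forall fun k => by
  have h1 : rbot S k = ⊥ := rfl
  rw [h1, bot_inf_eq]
  exact bot_le

/-- the deficit of a point given a partition: the cut value -/
theorem vde_le {y : S.VV N} {X : Rsl S} {v : ℝ} (he : 0 ≤ e)
    (h : ul (fun k => Pool.Agent.Helper31.EC.h (fc (Setoid.ker (y.cellv e k))) (fc (X k)) / (S.F k).n) ≤ v) :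
    (Vde N e).f (S := S) (fun k => (X k, y.v k)) ≤ v := by
  obtain ⟨a, ha⟩ : ∃ a : ℕ → ℝ, a = fun k => Pool.Agent.Helper31.EC.h (fc (Setoid.ker (y.cellv e k))) (fc (X k)) /
      (S.F k).n := ⟨_, rfl⟩
  have hb : ∀ᶠ k in UF, a k ≤ N * e + 1 := by
    rw [ha]
    exact h_cell_le y he (fun k => fc (X k)) 1 one_pos
  have h0 : ∀ k, 0 ≤ a k := fun k => by
    rw [ha]
    exact div_nonneg (h_nonneg _ _) (S.F k).pos.le
  have u1 : UB a := UB_of_nonneg_le (Eventually.of_forall h0) hb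
  have u2 : UB fun k => min (a k) ((N : ℝ) + 1) := UB_of_nonneg_le
    (Eventually.of_forall fun k => le_min (h0 k) (by positivity)) (Eventually.of_forall fun k => min_le_right _ _)
  have h1 : ul (fun k => min (a k) ((N : ℝ) + 1)) ≤ ul a := ul_mono u2 u1 (Eventually.of_forall fun k => min_le_left _ _)
  rw [← ha] at h
  have h2 : (Vde N e).f (S := S) (fun k => (X k, y.v k)) = ul fun k => min (a k) ((N : ℝ) + 1) := by
    rw [ha]
    rfl
  rw [h2]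
  exact h1.trans h

/-- and back, below the cut -/
theorem le_vde {y : S.VV N} {X : Rsl S} {v : ℝ} (hv : v < N + 1) (h : (Vde N e).f (S := S) (fun k => (X k, y.v k)) ≤ v) :
    ul (fun k => Pool.Agent.Helper31.EC.h (fc (Setoid.ker (y.cellv e k))) (fc (X k)) / (S.F k).n) ≤ v := by
  obtain ⟨a, ha⟩ : ∃ a : ℕ → ℝ, a = fun k => Pool.Agent.Helper31.EC.h (fc (Setoid.ker (y.cellv e k))) (fc (X k)) /
      (S.F k).n := ⟨_, rfl⟩
  have h0 : ∀ k, 0 ≤ a k := fun k => by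
    rw [ha]
    exact div_nonneg (h_nonneg _ _) (S.F k).pos.le
  have u2 : UB fun k => min (a k) ((N : ℝ) + 1) := UB_of_nonneg_le
    (Eventually.of_forall fun k => le_min (h0 k) (by positivity)) (Eventually.of_forall fun k => min_le_right _ _)
  have h2 : (Vde N e).f (S := S) (fun k => (X k, y.v k)) = ul fun k => min (a k) ((N : ℝ) + 1) := by
    rw [ha]
    rfl
  rw [h2] at h
  rw [← ha]
  have h3 := eventually_lt_of_ul_lt u2 (h.trans_lt hv)
  refine (le_of_eq (ul_congr ?_)).trans h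
  filter_upwards [h3] with k hk
  rcases le_total (a k) ((N : ℝ) + 1) with h4 | h4
  · exact (min_eq_left h4).symm
  · rw [min_eq_right h4] at hk
    exact absurd hk (lt_irrefl _)

/-! ### members of the class -/

/-- EXACT DATA of a member, at an admissible triple -/
theorem vpe_ym [Finite ι] {s : MSys S N E ι} (w1 : ∀ j, 1 ≤ w j) (hκ : ∀ j, w j ≤ κ)
    (tot : AllE (fun _ t R => Tot w t R) S s (rbot S)) (car : AllE (fun _ t R => Car w t R) S s (rbot S))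
    (dfx : AllE (fun _ t R => Dfx w ρ t R) S s (rbot S)) (vsx : AllE (fun _ t R => Vsx w t R) S s (rbot S))
    (hA : Adm w c c' e) : ∃ (X X' : Rsl S) (f : Frm s.Q (Lab.ofZ X) fun j => w j * c)
      (f' : Frm s.Q (Lab.ofZ X') fun j => w j * c'), VPe s w ρ ((κ + 1) ^ N) κ c c' e X X' f f' := by
  have hw0 : ∀ j, 0 ≤ w j := fun j => zero_le_one.trans (w1 j)
  have c0' : 0 ≤ c' := hA.c0.trans hA.cc
  have c1 : ∀ j, w j * c < 1 := fun j => (mul_le_mul_of_nonneg_left hA.cc (hw0 j)).trans_lt (hA.c1 j)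
  obtain ⟨X, hX⟩ := AllE_self car c hA.c0 c1
  obtain ⟨X', hX'⟩ := AllE_self car c' c0' hA.c1
  obtain ⟨f⟩ := hX.fr
  obtain ⟨f'⟩ := hX'.fr
  refine ⟨X, X', f, f', fun i => hX.kl.1 (some i), fun i => hX'.kl.1 (some i),
    mcn w1 hκ hA.c0 (fun j => (c1 j).le) hX f le_rfl, mcn w1 hκ c0' (fun j => (hA.c1 j).le) hX' f' le_rfl, ?_, ?_⟩
  · exact AllE_self vsx c c' hA.c0 hA.cc hA.c1 X X' hX hX' f e hA.e0 hA.ce hA.d
  · intro T p A hA'
    have h1 := tot T p A hA' c hA.c0 c1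
    have h2 := mci p A hA' w1 hA.c0 c1 h1.ge hX
    have h3 := dfx T p A hA' c hA.c0 c1 X h2 (frmI p A f) e hA.e0 hA.ce
    exact vde_le (S := Sp.im p A) (y := (frmI p A f).X) (X := X) hA.e0.le h3

/-! ### the limit -/

section lim

variable [Finite ι] {s : MSys S N E ι} (w1 : ∀ j, 1 ≤ w j) (hκ : ∀ j, w j ≤ κ) (i₀ : Fin N) (hρ : 0 < ρ)
  (tot : AllE (fun _ t R => Tot w t R) S s (rbot S))
  (vpd : ∀ c c' e : ℝ, Adm w c c' e → (vpA w ρ D κ c c' e).pd 0 S (ob s))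

/-- an admissible depth -/
theorem exists_adm {w : Fin N → ℝ} (h0 : 0 ≤ c) (h1 : ∀ j, w j * c < 1) : ∃ e, Adm w c c e := by
  obtain ⟨e, he, -, h2⟩ := Pool.Agent.Helper99.MX.exists_unit (fun j => w j * c) h1
  exact ⟨e, h0, le_rfl, h1, he, h2, fun i => by rw [sub_self, mul_zero]; exact he⟩

include w1 hκ tot vpd

/-- data of the limit, on an event: least carriers, frames, visibility, deficit -/
theorem lim_data (hA : Adm w c c' e) : ∃ (X X' : Rsl S) (f : Frm s.Q (Lab.ofZ X) fun j => w j * c),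
    Mc s (rbot S) w c X ∧ Mc s (rbot S) w c' X' ∧
    (Nul S fun k => h (fc (X' k)) (fc (X k) ⊔ clF f e k)) ∧
    AlB (Vde N e) ((N - ρ) * e) (K := KXV N) (S := S) fun k => (X k, ptF f k) := by
  have hw0 : ∀ j, 0 ≤ w j := fun j => zero_le_one.trans (w1 j)
  have c0' : 0 ≤ c' := hA.c0.trans hA.cc
  have c1 : ∀ j, w j * c < 1 := fun j => (mul_le_mul_of_nonneg_left hA.cc (hw0 j)).trans_lt (hA.c1 j)
  obtain ⟨X, X', f, f', hd⟩ := vpe_of_pd (vpd c c' e hA)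
  have t1 := AllE_self tot
  refine ⟨X, X', f, ?_, ?_, hd.vs, hd.df⟩
  · exact mcc w1 hκ hA.c0 c1 (t1 c hA.c0 c1).ge (lit_rbot X) ((tlb_iff s c _).mpr hd.tl) f hd.cn
  · exact mcc w1 hκ c0' hA.c1 (t1 c' c0' hA.c1).ge (lit_rbot X') ((tlb_iff s c' _).mpr hd.tl') f' hd.cn'

/-- least carriers of the limit -/
theorem lim_car : AllE (fun _ t R => Car w t R) S s (rbot S) := by
  intro T p A hA c h0 h1
  obtain ⟨e, he⟩ := exists_adm h0 h1
  obtain ⟨X, X', f, h2, -⟩ := lim_data w1 hκ tot vpd he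
  exact ⟨X, mci p A hA w1 h0 h1 (tot T p A hA c h0 h1).ge h2⟩

include i₀ in
/-- visibility of the limit -/
theorem lim_vsx : AllE (fun _ t R => Vsx w t R) S s (rbot S) := by
  intro T p A hA c c' h0 hcc h1 X1 X1' hX1 hX1' f1 e he hwe hwd
  have hw0 : ∀ j, 0 ≤ w j := fun j => zero_le_one.trans (w1 j)
  have c1 : ∀ j, w j * c < 1 := fun j => (mul_le_mul_of_nonneg_left hcc (hw0 j)).trans_lt (h1 j)
  obtain ⟨X, X', f, h2, h3, h4, -⟩ := lim_data w1 hκ tot vpd (⟨h0, hcc, h1, he, hwe, hwd⟩ : Adm w c c' e)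
  have m2 := mci p A hA w1 h0 c1 (tot T p A hA c h0 c1).ge h2
  have m3 := mci p A hA w1 (h0.trans hcc) h1 (tot T p A hA c' (h0.trans hcc) h1).ge h3
  have v1 := ple_im p A hA (X := fun k => fc (X' k)) (Y := fun k => fc (X k) ⊔ clF f e k) h4
  refine vsx_at (S := Sp.im p A) (s := s.im p A hA) i₀ (pt_rbot _) w1 h0 (tot T p A hA c h0 c1) m2 hX1 (frmI p A f) f1
    he hwe (Y := fun k => fc (F := (Sp.im p A).F k) (X' k)) (Y' := fun k => fc (F := (Sp.im p A).F k) (X1' k))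
    (mc_uniq hX1' m3) ?_
  exact v1

include i₀ hρ in
/-- deficit of the limit -/
theorem lim_dfx : AllE (fun _ t R => Dfx w ρ t R) S s (rbot S) := by
  intro T p A hA c h0 h1 X1 hX1 f1 e he hwe
  have hadm : Adm w c c e := ⟨h0, le_rfl, h1, he, hwe, fun i => by rw [sub_self, mul_zero]; exact he⟩
  obtain ⟨X, X', f, h2, -, -, h4⟩ := lim_data w1 hκ tot vpd hadm
  have m2 := mci p A hA w1 h0 h1 (tot T p A hA c h0 h1).ge h2
  have he1 : e ≤ 1 := by
    have a1 := hwe i₀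
    have a2 := mul_nonneg (zero_le_one.trans (w1 i₀)) h0
    linarith
  have hv : ((N : ℝ) - ρ) * e < N + 1 := by
    have hN : (0 : ℝ) ≤ N := Nat.cast_nonneg N
    nlinarith
  have d1 : (Vde N e).f (S := Sp.im p A) (fun k => (X k, (frmI p A f).X.v k)) ≤ (N - ρ) * e := h4 T p A hA
  have d2 := le_vde (S := Sp.im p A) (y := (frmI p A f).X) (X := X) hv d1
  exact dfx_at (S := Sp.im p A) (s := s.im p A hA) i₀ (pt_rbot _) w1 h0 (tot T p A hA c h0 h1) m2 hX1 (frmI p A f) f1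
    he hwe d2

end lim

/-! ### the row -/

/-- [DGY] from the two limit theorems -/
theorem dgyr_of {M : ℕ} (nsl : NSLx (M + 1)) (aen : AENx (M + 1)) (zm : ZMYR M) : DGYR M := by
  classical
  intro A C B Dc v ctx ok m g r w ρ hw S x hx
  choose s hs1 hs2 using hx
  obtain ⟨κ, hκ⟩ : ∃ κ : ℕ, ∀ j, w j ≤ κ := ⟨g, hw.le⟩
  obtain ⟨Q1, hQ1, h1⟩ := tot_dg nsl aen zm ctx ok hw s hs2
  obtain ⟨qn, hqn⟩ := exists_surjective_nat (ℚ × ℚ × ℚ)
  have h0 : ∀ n : ℕ, ∃ Q : ℕ → ℕ → ℕ → Prop, (∀ i j, ∀ᶠ k in UF, Q i j k) ∧ ∀ (J : ℕ → ℕ) (h : Slo S Q J),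
      Adm w ((qn n).1 : ℝ) ((qn n).2.1 : ℝ) ((qn n).2.2 : ℝ) →
        (vpA w ρ ((κ + 1) ^ (M + 1)) κ ((qn n).1 : ℝ) ((qn n).2.1 : ℝ) ((qn n).2.2 : ℝ)).pd 0 (dsp S J h.lim)
          (fun k => ob (s (J k)) k : (KM (M + 1) (Fin r)).Ob (dsp S J h.lim)) := by
    intro n
    by_cases hn : Adm w ((qn n).1 : ℝ) ((qn n).2.1 : ℝ) ((qn n).2.2 : ℝ)
    · obtain ⟨Q, hQ, h1⟩ := (vpA w ρ ((κ + 1) ^ (M + 1)) κ ((qn n).1 : ℝ) ((qn n).2.1 : ℝ)
        ((qn n).2.2 : ℝ)).diagCl 0 S (fun j => ob (s j)) (fun j => by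
          obtain ⟨X, X', f, f', hd⟩ := vpe_ym hw.ge hκ (hs2 j).tot (hs2 j).car (hs2 j).dfx (hs2 j).vsx hn
          exact hd.pd)
      exact ⟨Q, hQ, fun J h _ => h1 J h⟩
    · exact ⟨fun _ _ _ => True, fun _ _ => Eventually.of_forall fun _ => trivial, fun _ _ a => absurd a hn⟩
  choose Q2 hQ2 h2 using h0
  refine ⟨fun i j k => Q1 i j k ∧ Q2 (Nat.unpair i).1 (Nat.unpair i).2 j k ∧ ob (s j) k = x j k, fun i j =>
    (hQ1 i j).and ((hQ2 _ _ j).and (hs1 j)), fun J h => ?_⟩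
  obtain ⟨⟨t, ht, hD⟩, h3⟩ := h1 J h.left
  obtain ⟨inv, wd, tot⟩ := h3 t ht
  have hx' : ∀ᶠ k in UF, ob (s (J k)) k = x (J k) k := (h.slow 0).mono fun k hk => hk.2.2
  refine ⟨t, by filter_upwards [ht, hx'] with k a b using a.trans b, ?_⟩
  have hvp : ∀ c c' e : ℝ, Adm w c c' e → (vpA w ρ ((κ + 1) ^ (M + 1)) κ c c' e).pd 0 _ (ob t) := by
    intro c c' e hadm
    refine vp_real t hw.ge hκ (fun q q' b hq => ?_) hadm
    obtain ⟨n, hn⟩ := hqn (q, q', b)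
    have h4 := h2 n J (Slo.prm (E := Q2) h.right.left n)
    rw [hn] at h4
    exact (vpA w ρ ((κ + 1) ^ (M + 1)) κ (q : ℝ) (q' : ℝ) (b : ℝ)).inv 0 _ _ _ (ht.mono fun k hk => hk.symm) (h4 hq)
  exact ⟨hD, inv, wd, tot, lim_car hw.ge hκ tot hvp, lim_dfx hw.ge hκ 0 hw.rho tot hvp, lim_vsx hw.ge hκ 0 tot hvp⟩

end

end Pool.Agent.Helper21.DGY
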