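import Pool.Agent.Helper21.DGY.Scl
import Pool.Agent.Helper95.VIS.Mn
import Pool.Agent.Helper32.DGY.Fin
import Pool.Agent.Helper26.BXD.Box

/-! FINITE ESTIMATES for moving of windows: the roundings of comparable forms, the roundings of the forms of a box at two
scales, the cells of two proportional points. -/

set_option autoImplicit false

namespace Pool.Agent.Helper21.DGY

open Finset Filter Topology Matrix Pool.Agent.Helper69.RK Pool.Agent.Helper31.EC Pool.Agent.Helper31.EC.Sp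
open Pool.Agent.Helper40.EL Pool.Agent.Helper89.LX Pool.Agent.Helper84.MT Pool.Agent.Helper66.NJ
open Pool.Agent.Helper95.LF (PdM NearM)
open Pool.Agent.Helper95.VIS
open Pool.Agent.Helper49.MD (dlF)
open Pool.Agent.Helper26.BXD
open Pool.Agent.Helper3.LF (Mon)

noncomputable section

variable {ι : Type} [Fintype ι] [DecidableEq ι]

theorem pdM_of_ge {A : Matrix ι ι ℝ} (h1 : A.IsSymm) (h2 : ∀ x, x ⬝ᵥ x ≤ x ⬝ᵥ (A *ᵥ x)) : PdM A := by
  refine ⟨h1, fun x hx => ?_⟩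
  have h3 : 0 < x ⬝ᵥ x := by
    rcases (dot_self_nonneg x).lt_or_eq with h | h
    · exact h
    · exact absurd (dotProduct_self_eq_zero.mp h.symm) hx
  exact h3.trans_le (h2 x)

/-- a form which is at least one is capped by some power -/
theorem exists_cap {F : FSp} (G : F.Ω → Matrix ι ι ℝ) (hs : ∀ ω, (G ω).IsSymm)
    (hG : ∀ ω x, x ⬝ᵥ x ≤ x ⬝ᵥ (G ω *ᵥ x)) : ∃ c : ℝ, 0 ≤ c ∧ ∀ ω, Cpd (2 ^ (c * F.n)) (G ω) := by
  have hn := F.pos
  obtain ⟨B, hB⟩ : ∃ B : ℝ, ∀ ω, ∀ i j, |G ω i j| ≤ B :=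
    ⟨∑ ω, ∑ i, ∑ j, |G ω i j|, fun ω i j => by
      have h1 : |G ω i j| ≤ ∑ j, |G ω i j| :=
        Finset.single_le_sum (f := fun j => |G ω i j|) (fun j _ => abs_nonneg _) (Finset.mem_univ j)
      have h2 : ∑ j, |G ω i j| ≤ ∑ i, ∑ j, |G ω i j| :=
        Finset.single_le_sum (f := fun i => ∑ j, |G ω i j|) (fun i _ => Finset.sum_nonneg fun j _ => abs_nonneg _)
          (Finset.mem_univ i)
      have h3 : ∑ i, ∑ j, |G ω i j| ≤ ∑ ω, ∑ i, ∑ j, |G ω i j| :=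
        Finset.single_le_sum (f := fun ω => ∑ i, ∑ j, |G ω i j|)
          (fun ω _ => Finset.sum_nonneg fun i _ => Finset.sum_nonneg fun j _ => abs_nonneg _) (Finset.mem_univ ω)
      exact h1.trans (h2.trans h3)⟩
  obtain ⟨K, hK1, hK⟩ : ∃ K : ℝ, 1 ≤ K ∧ Fintype.card ι * |B| ≤ K :=
    ⟨max 1 (Fintype.card ι * |B|), le_max_left _ _, le_max_right _ _⟩
  have e1 : (2 : ℝ) ^ (Real.logb 2 K / F.n * F.n) = K := by
    rw [div_mul_cancel₀ _ hn.ne']
    exact Real.rpow_logb (by norm_num) (by norm_num) (by linarith)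
  refine ⟨Real.logb 2 K / F.n, div_nonneg (Real.logb_nonneg (by norm_num) hK1) hn.le, fun ω =>
    ⟨hs ω, hG ω, fun x => ?_⟩⟩
  rw [e1]
  have h1 : x ⬝ᵥ (G ω *ᵥ x) ≤ ∑ i, ∑ j, |B| * ((x i ^ 2 + x j ^ 2) / 2) := by
    unfold dotProduct Matrix.mulVec dotProduct
    refine Finset.sum_le_sum fun i _ => ?_
    rw [Finset.mul_sum]
    refine Finset.sum_le_sum fun j _ => ?_
    have a1 : x i * (G ω i j * x j) ≤ |G ω i j| * (|x i| * |x j|) := by
      refine (le_abs_self _).trans (le_of_eq ?_)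
      rw [abs_mul, abs_mul]
      ring
    have a2 : |x i| * |x j| ≤ (x i ^ 2 + x j ^ 2) / 2 := by
      have := sq_nonneg (|x i| - |x j|)
      have e1 := sq_abs (x i)
      have e2 := sq_abs (x j)
      nlinarith
    have a3 : |G ω i j| ≤ |B| := (hB ω i j).trans (le_abs_self B)
    exact a1.trans (mul_le_mul a3 a2 (mul_nonneg (abs_nonneg _) (abs_nonneg _)) (abs_nonneg _))
  have h2 : ∑ i, ∑ j, |B| * ((x i ^ 2 + x j ^ 2) / 2) = Fintype.card ι * |B| * (x ⬝ᵥ x) := by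
    have e3 : ∀ i : ι, ∑ j, |B| * ((x i ^ 2 + x j ^ 2) / 2) =
        |B| / 2 * (Fintype.card ι * x i ^ 2) + |B| / 2 * ∑ j, x j ^ 2 := fun i => by
      have e4 : ∀ j : ι, |B| * ((x i ^ 2 + x j ^ 2) / 2) = |B| / 2 * x i ^ 2 + |B| / 2 * x j ^ 2 := fun j => by ring
      have e6 : ∑ _j : ι, |B| / 2 * x i ^ 2 = Fintype.card ι * (|B| / 2 * x i ^ 2) := by
        rw [Finset.sum_const, Finset.card_univ, nsmul_eq_mul]
      rw [Finset.sum_congr rfl fun j _ => e4 j, Finset.sum_add_distrib, e6, Finset.mul_sum]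
      ring
    have e5 : x ⬝ᵥ x = ∑ j, x j ^ 2 := by
      unfold dotProduct
      exact Finset.sum_congr rfl fun j _ => by ring
    have e7 : ∑ _i : ι, |B| / 2 * ∑ j, x j ^ 2 = Fintype.card ι * (|B| / 2 * ∑ j, x j ^ 2) := by
      rw [Finset.sum_const, Finset.card_univ, nsmul_eq_mul]
    have e8 : ∑ i : ι, |B| / 2 * (Fintype.card ι * x i ^ 2) = |B| / 2 * (Fintype.card ι * ∑ j, x j ^ 2) := by
      rw [Finset.mul_sum, Finset.mul_sum]
    rw [Finset.sum_congr rfl fun i _ => e3 i, Finset.sum_add_distrib, e7, e8, e5]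
    ring
  refine (h1.trans_eq h2).trans ?_
  exact mul_le_mul_of_nonneg_right hK (dot_self_nonneg x)

/-- THE ROUNDINGS OF COMPARABLE FORMS -/
theorem ker_rdm_fin {F : FSp} {G G' : F.Ω → Matrix ι ι ℝ} {e : ℝ} (he : 0 < e) (hG : ∀ ω, PdM (G ω))
    (hs : ∀ ω, (G' ω).IsSymm) (hG' : ∀ ω x, x ⬝ᵥ x ≤ x ⬝ᵥ (G' ω *ᵥ x)) (hn : 1 + Real.sqrt F.n ≤ e * F.n)
    (hN : ∀ ω, NearM (e * F.n) (G' ω) (rdm F.n (G ω))) :
    h (fc (Setoid.ker fun ω => rdm F.n (G' ω)) : FL F) (fc (Setoid.ker fun ω => rdm F.n (G ω))) ≤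
      rC ι / Real.log 2 * e * F.n + 1 := by
  obtain ⟨c, hc, hcap⟩ := exists_cap G' hs hG'
  have hk : Kn1 (Setoid.ker fun ω => rdm F.n (G ω)) (fun ω => rdm F.n (G ω)) := fun ω ω' _ _ h _ => h
  have eg : (zFD (Setoid.ker fun ω => rdm F.n (G ω)) (fun ω => rdm F.n (G ω))).g = fun ω => rdm F.n (G ω) :=
    zFD_g hk
  have h1 := knows_fin (zFD (Setoid.ker fun ω => rdm F.n (G ω)) (fun ω => rdm F.n (G ω))) G' he hc
    (fun ω _ => hcap ω) (fun ω _ => by
      rw [eg]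
      exact rdm_pd _ (hG ω)) hn
  have h2 : (zFD (Setoid.ker fun ω => rdm F.n (G ω)) (fun ω => rdm F.n (G ω))).l.T.pb
      (fun ω => ¬ NearM (e * F.n) (G' ((zFD (Setoid.ker fun ω => rdm F.n (G ω)) (fun ω => rdm F.n (G ω))).l.p.π ω))
        ((zFD (Setoid.ker fun ω => rdm F.n (G ω)) (fun ω => rdm F.n (G ω))).g ω)) = 0 := by
    apply pb_zero
    intro ω _ hne
    apply hne
    rw [eg]
    exact hN ω
  rw [h2, zero_mul, add_zero] at h1
  exact h1

/-! ### the form of a box as finite data -/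

variable {M : ℕ}

/-- the form of the box of finite data -/
def gfF (F : FSp) (La : Fin M → ℝ) (D κ : ℕ) (P : F.Ω → Fin M → MvPolynomial (Fin M) ℝ) (ω : F.Ω) :
    Matrix (Mon M D) (Mon M D) ℝ := gch D (D * (κ + 1)) (P ω) (fun i => dlF F (La i))

/-- the partition into the roundings of the form of the box -/
def kgF (F : FSp) (La : Fin M → ℝ) (D κ : ℕ) (P : F.Ω → Fin M → MvPolynomial (Fin M) ℝ) : Setoid F.Ω :=
  Setoid.ker fun ω => rdm F.n (gfF F La D κ P ω)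

section box

variable {F : FSp} {La La' : Fin M → ℝ} {D κ : ℕ} {P : F.Ω → Fin M → MvPolynomial (Fin M) ℝ}
  (tri : ∀ ω j, ∀ i ∈ (P ω j).vars, i < j) (deg : ∀ ω j, (P ω j).totalDegree ≤ κ)

theorem dlF_pos' (F : FSp) (r : ℝ) : 0 < dlF F r := Real.rpow_pos_of_pos (by norm_num) _

include tri deg

theorem gfF_ge (ω : F.Ω) : (gfF F La D κ P ω).IsSymm ∧ ∀ x, x ⬝ᵥ x ≤ x ⬝ᵥ (gfF F La D κ P ω *ᵥ x) :=
  ⟨gch_symm _ _, fun x => gch_ge (tri ω) _ (fun i => (dlF_pos' F _).ne') (deg ω) le_rfl x⟩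

theorem gfF_near {η : ℝ} (hη : 0 ≤ η) (h : ∀ j, |La' j - La j| ≤ η) (ω : F.Ω) :
    NearM (2 * (D * (κ + 1)) * η * F.n) (gfF F La' D κ P ω) (gfF F La D κ P ω) := by
  have hn := F.pos
  have hR : (1 : ℝ) ≤ 2 ^ (η * F.n) := Real.one_le_rpow (by norm_num) (mul_nonneg hη hn.le)
  have hd : ∀ a b : ℝ, |b - a| ≤ η → dlF F a ≤ 2 ^ (η * F.n) * dlF F b := fun a b hab => by
    unfold dlF
    rw [← Real.rpow_add (by norm_num)]
    apply Real.rpow_le_rpow_of_exponent_le (by norm_num)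
    have h1 := (abs_le.mp hab).2
    nlinarith
  have hl : Real.log 2 ≤ 1 := by
    have := Real.log_two_lt_d9
    linarith
  have h2 : ((2 : ℝ) ^ (η * F.n)) ^ (2 * (D * (κ + 1))) ≤ Real.exp (2 * (D * (κ + 1)) * η * F.n) := by
    rw [← Real.rpow_natCast, ← Real.rpow_mul (by norm_num), Real.rpow_def_of_pos (by norm_num)]
    apply Real.exp_le_exp.mpr
    have h3 : 0 ≤ η * F.n * ((2 * (D * (κ + 1)) : ℕ) : ℝ) := by positivity
    have h4 := mul_le_mul_of_nonneg_right hl h3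
    rw [one_mul] at h4
    refine h4.trans (le_of_eq ?_)
    push_cast
    ring
  constructor
  · intro v
    have h3 := gch_scl (D := D) (DD := D * (κ + 1)) (tri ω) (d := fun i => dlF F (La' i)) (d' := fun i => dlF F (La i))
      (fun i => dlF_pos' F _) (fun i => dlF_pos' F _) hR (fun i => hd (La i) (La' i) (h i)) (deg ω) le_rfl v
    exact h3.trans (mul_le_mul_of_nonneg_right h2 ((dot_self_nonneg v).trans ((gfF_ge tri deg ω).2 v)))
  · intro v
    have h3 := gch_scl (D := D) (DD := D * (κ + 1)) (tri ω) (d := fun i => dlF F (La i)) (d' := fun i => dlF F (La' i))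
      (fun i => dlF_pos' F _) (fun i => dlF_pos' F _) hR (fun i => hd (La' i) (La i) (by
        rw [abs_sub_comm]
        exact h i)) (deg ω) le_rfl v
    exact h3.trans (mul_le_mul_of_nonneg_right h2 ((dot_self_nonneg v).trans ((gfF_ge tri deg ω).2 v)))

/-- the constant of the moving of roundings -/
def cK (M D κ : ℕ) : ℝ := rC (Mon M D) / Real.log 2 * (2 * (D * (κ + 1)) + 1)

omit [Fintype ι] [DecidableEq ι] tri deg in
theorem cK_nn (M D κ : ℕ) : 0 ≤ cK M D κ := by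
  unfold cK
  have h1 := one_le_rC (Mon M D)
  have h2 : 0 < Real.log 2 := Real.log_pos (by norm_num)
  positivity

/-- THE ROUNDINGS OF THE FORM OF THE BOX at two scales -/
theorem kgF_move {η : ℝ} (hη : 0 < η) (h : ∀ j, |La' j - La j| ≤ η)
    (hn : rC (Mon M D) * (1 + Real.sqrt F.n) ≤ η * F.n) :
    Pool.Agent.Helper31.EC.h (fc (kgF F La D κ P)) (fc (kgF F La' D κ P)) ≤ cK M D κ * η * F.n + 1 := by
  have hF := F.pos
  have hC := one_le_rC (Mon M D)
  have hsq := Real.sqrt_nonneg F.n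
  have he : 0 < (2 * ((D : ℝ) * (κ + 1)) + 1) * η := by positivity
  have h1 : 1 + Real.sqrt F.n ≤ (2 * ((D : ℝ) * (κ + 1)) + 1) * η * F.n := by
    have a1 : 1 + Real.sqrt F.n ≤ rC (Mon M D) * (1 + Real.sqrt F.n) := by nlinarith
    have a2 : 0 ≤ 2 * ((D : ℝ) * (κ + 1)) * (η * F.n) := by positivity
    nlinarith
  have h2 := ker_rdm_fin (F := F) (G := gfF F La' D κ P) (G' := gfF F La D κ P) he
    (fun ω => pdM_of_ge (gfF_ge tri deg ω).1 (gfF_ge tri deg ω).2) (fun ω => (gfF_ge tri deg ω).1)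
    (fun ω => (gfF_ge tri deg ω).2) h1 (fun ω => by
      have a1 := gfF_near (D := D) (La := La') (La' := La) tri deg hη.le (fun j => by
        rw [abs_sub_comm]
        exact h j) ω
      have a2 := rdm_near F.n (pdM_of_ge (gfF_ge (D := D) (La := La') tri deg ω).1 (gfF_ge (La := La') tri deg ω).2)
      have a3 := near_trans a1 a2
      refine near_mono a3 ?_ (pdM_of_ge (gfF_ge tri deg ω).1 (gfF_ge tri deg ω).2)
        (rdm_pd _ (pdM_of_ge (gfF_ge (La := La') tri deg ω).1 (gfF_ge (La := La') tri deg ω).2))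
      have a4 : (2 * ((D : ℝ) * (κ + 1)) + 1) * η * F.n = 2 * (D * (κ + 1)) * η * F.n + η * F.n := by ring
      rw [a4]
      linarith)
  refine h2.trans (le_of_eq ?_)
  unfold cK
  ring

end box

/-! ### cells of proportional points -/

theorem floor_mem {x m a R : ℝ} (ha : 0 ≤ a) (hR : a ≤ R) (h1 : m ≤ x) (h2 : x ≤ m + a) :
    ∃ i : ℕ, i < ⌊R⌋₊ + 2 ∧ ⌊x⌋ = ⌊m⌋ + i := by
  have h3 : ⌊m⌋ ≤ ⌊x⌋ := Int.floor_le_floor h1
  refine ⟨(⌊x⌋ - ⌊m⌋).toNat, ?_, ?_⟩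
  · have h4 : (⌊x⌋ : ℝ) < ⌊m⌋ + 1 + a := by
      have := Int.floor_le x
      have := Int.lt_floor_add_one m
      linarith
    have h5 : ((⌊x⌋ - ⌊m⌋).toNat : ℤ) = ⌊x⌋ - ⌊m⌋ := Int.toNat_of_nonneg (by linarith)
    have h6 : (((⌊x⌋ - ⌊m⌋).toNat : ℕ) : ℝ) = ⌊x⌋ - ⌊m⌋ := by exact_mod_cast h5
    have h7 : (((⌊x⌋ - ⌊m⌋).toNat : ℕ) : ℝ) < ((⌊R⌋₊ + 2 : ℕ) : ℝ) := by
      rw [h6]
      push_cast
      have := Nat.lt_floor_add_one R
      linarith
    exact_mod_cast h7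
  · rw [Int.toNat_of_nonneg (by linarith)]
    ring

/-- THE CELLS OF TWO PROPORTIONAL POINTS -/
theorem h_cell_scl {F : FSp} {m : ℕ} (y y' : F.Ω → Fin m → ℝ) (lam : Fin m → ℝ) {δ δ' R : ℝ} (hl : ∀ j, 0 < lam j)
    (hδ : 0 < δ) (hδ' : 0 < δ') (hR0 : 0 ≤ R) (hR : ∀ j, lam j * δ ≤ R * δ') (hy : ∀ ω j, y' ω j = lam j * y ω j) :
    h (fc (Setoid.ker fun ω => cell δ' (y' ω)) : FL F) (fc (Setoid.ker fun ω => cell δ (y ω))) ≤
      m * Real.logb 2 (R + 2) + 1 := by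
  classical
  obtain ⟨K, hK⟩ : ∃ K : ℕ, K = ⌊R⌋₊ + 2 := ⟨_, rfl⟩
  have hK1 : 1 ≤ K := by omega
  obtain ⟨N, hN⟩ : ∃ N : ℕ, N = K ^ m := ⟨_, rfl⟩
  have hN1 : 1 ≤ N := by
    rw [hN]
    exact Nat.one_le_pow _ _ hK1
  have hcard : Fintype.card (Fin m → Fin K) = N := by
    rw [Fintype.card_fun, Fintype.card_fin, Fintype.card_fin, hN]
  obtain ⟨φ, -⟩ : ∃ φ : Fin N ≃ (Fin m → Fin K), True := ⟨(Fintype.equivFinOfCardEq hcard).symm, trivial⟩
  have key := h_few_typ (F := F) (fun _ => True) (fun ω => cell δ' (y' ω)) (fun ω => cell δ (y ω)) N hN1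
    (fun c i j => ⌊(lam j * δ / δ') * (c j : ℝ)⌋ + ((φ i j : ℕ) : ℤ)) (by
      intro ω _ _
      have h1 : ∀ j, ∃ i : Fin K, cell δ' (y' ω) j = ⌊(lam j * δ / δ') * (cell δ (y ω) j : ℝ)⌋ + ((i : ℕ) : ℤ) := by
        intro j
        have hl' := hl j
        have a0 : 0 < lam j * δ / δ' := by positivity
        have e1 : y' ω j / δ' = (lam j * δ / δ') * (y ω j / δ) := by
          rw [hy ω j]
          field_simp
        have a1 : ((cell δ (y ω) j : ℤ) : ℝ) ≤ y ω j / δ := Int.floor_le _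
        have a2 : y ω j / δ < (cell δ (y ω) j : ℤ) + 1 := Int.lt_floor_add_one _
        have a3 : lam j * δ / δ' ≤ R := by
          rw [div_le_iff₀ hδ']
          exact hR j
        obtain ⟨i, hi, hi2⟩ := floor_mem (x := y' ω j / δ') (m := (lam j * δ / δ') * (cell δ (y ω) j : ℝ)) a0.le a3 (by
          rw [e1]
          exact mul_le_mul_of_nonneg_left a1 a0.le) (by
          rw [e1]
          have := mul_le_mul_of_nonneg_left a2.le a0.le
          linarith)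
        refine ⟨⟨i, by omega⟩, ?_⟩
        exact hi2
      choose i hi using h1
      refine ⟨φ.symm i, ?_⟩
      funext j
      rw [Equiv.apply_symm_apply]
      exact hi j)
    (max 1 ((Finset.univ.image fun ω => cell δ' (y' ω)).card : ℝ)) (le_max_left _ _)
    (Finset.univ.image fun ω => cell δ' (y' ω)) (le_max_right _ _) (fun ω _ =>
      Finset.mem_image_of_mem _ (Finset.mem_univ ω))
  have h0 : F.pb (fun _ => ¬ True) = 0 := pb_zero fun _ _ h => h trivial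
  rw [h0, zero_mul, add_zero] at key
  refine key.trans ?_
  have h2 : Real.logb 2 (N : ℝ) ≤ m * Real.logb 2 (R + 2) := by
    rw [hN, Nat.cast_pow, Real.logb_pow]
    apply mul_le_mul_of_nonneg_left _ (Nat.cast_nonneg m)
    apply Real.logb_le_logb_of_le (by norm_num) (by exact_mod_cast hK1)
    rw [hK]
    push_cast
    have := Nat.floor_le hR0
    linarith
  linarith

end

end Pool.Agent.Helper21.DGY
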