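import Pool.Agent.Helper21.DGY.Asm
import Pool.Agent.Helper32.DGY.Aen
import Pool.Agent.Helper43.NSLB.Main

/-! ROW `DGYR` of Helper29/MX/St2 from ROW `ZMYR`. -/

set_option autoImplicit false

namespace Pool.Agent.Helper21.DGY

open Pool.Agent.Helper29.MX

/-- [DGY] the last class is closed under slow diagonals -/
theorem dgyr {M : ℕ} (zm : ZMYR M) : DGYR M :=
  dgyr_of (Pool.Agent.Helper43.NSLB.nslb (M + 1)) (Pool.Agent.Helper32.DGY.aenx M) zm

end Pool.Agent.Helper21.DGY
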