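import Pool.Agent.Helper26.BXD.Grm

/-! THE FORM OF A BOX AT DIFFERENT SCALES: if the scales of two charts with the same polynomials differ by factors
between `R⁻¹` and `R`, the forms differ by factors between `R ^ (-2 DD)` and `R ^ (2 DD)`. -/

set_option autoImplicit false

namespace Pool.Agent.Helper21.DGY

open Finset Matrix MvPolynomial Pool.Agent.Helper95.LF Pool.Agent.Helper3.LF Pool.Agent.Helper84.MT
open Pool.Agent.Helper26.BXD Pool.Agent.Helper7.GZ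

noncomputable section

/-! ### inverses of comparable Gram matrices -/

section gram

variable {α β : Type} [Fintype α] [DecidableEq α] [Fintype β] [DecidableEq β]

/-- inverse Gram matrices of comparable matrices -/
theorem gri_le {T T' : Matrix α β ℝ} (hT : ∀ c, T *ᵥ c = 0 → c = 0) (hT' : ∀ c, T' *ᵥ c = 0 → c = 0) {c : ℝ}
    (hc : 0 < c) (h : ∀ u, (T *ᵥ u) ⬝ᵥ (T *ᵥ u) ≤ c * ((T' *ᵥ u) ⬝ᵥ (T' *ᵥ u))) (v : β → ℝ) :
    v ⬝ᵥ (gri T' *ᵥ v) ≤ c * (v ⬝ᵥ (gri T *ᵥ v)) := by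
  obtain ⟨u, hu⟩ : ∃ u, u = gri T' *ᵥ v := ⟨_, rfl⟩
  obtain ⟨w, hw⟩ : ∃ w, w = gri T *ᵥ v := ⟨_, rfl⟩
  have h1 : v ⬝ᵥ (gri T' *ᵥ v) = (T' *ᵥ u) ⬝ᵥ (T' *ᵥ u) := by rw [gri_qf T' hT', ← hu]
  have h2 : v ⬝ᵥ (gri T *ᵥ v) = (T *ᵥ w) ⬝ᵥ (T *ᵥ w) := by rw [gri_qf T hT, ← hw]
  -- `u ⬝ v` in two ways
  have h3 : u ⬝ᵥ v = (T' *ᵥ u) ⬝ᵥ (T' *ᵥ u) := by
    rw [← gr_bil, hu, gr_inv T' hT']
  have h4 : u ⬝ᵥ v = (T *ᵥ u) ⬝ᵥ (T *ᵥ w) := by
    rw [← gr_bil, hw, gr_inv T hT]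
  have h5 : 0 ≤ (T *ᵥ u - c • (T *ᵥ w)) ⬝ᵥ (T *ᵥ u - c • (T *ᵥ w)) := by
    unfold dotProduct
    exact Finset.sum_nonneg fun _ _ => mul_self_nonneg _
  rw [sub_dotProduct, dotProduct_sub, dotProduct_sub, smul_dotProduct, smul_dotProduct, dotProduct_smul,
    dotProduct_smul, smul_eq_mul, smul_eq_mul, smul_eq_mul, smul_eq_mul, dotProduct_comm (T *ᵥ w) (T *ᵥ u), ← h4] at h5
  have h6 := h u
  rw [← h3] at h6
  rw [h1, h2, ← h3]
  have h7 : c * (u ⬝ᵥ v) ≤ c * (c * ((T *ᵥ w) ⬝ᵥ (T *ᵥ w))) := by nlinarith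
  exact le_of_mul_le_mul_left h7 hc

end gram

variable {M D DD : ℕ}

/-! ### scaled polynomials -/

/-- scaled variables -/
def sclX (lam : Fin M → ℝ) : Fin M → MvPolynomial (Fin M) ℝ := fun i => C (lam i) * X i

theorem coeff_scl (lam : Fin M → ℝ) (q : MvPolynomial (Fin M) ℝ) (m : Fin M →₀ ℕ) :
    (bind₁ (sclX lam) q).coeff m = (∏ i, lam i ^ m i) * q.coeff m := by
  classical
  induction q using MvPolynomial.induction_on' with
  | monomial u a =>
    have h1 : bind₁ (sclX lam) (monomial u a) = monomial u (a * ∏ i, lam i ^ u i) := by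
      rw [bind₁_monomial]
      unfold sclX
      have h2 : (∏ i ∈ u.support, (C (lam i) * X i : MvPolynomial (Fin M) ℝ) ^ u i) =
          C (∏ i, lam i ^ u i) * monomial u 1 := by
        have h3 : (∏ i ∈ u.support, (C (lam i) * X i : MvPolynomial (Fin M) ℝ) ^ u i) =
            ∏ i, (C (lam i) * X i : MvPolynomial (Fin M) ℝ) ^ u i := by
          apply Finset.prod_subset (Finset.subset_univ _)
          intro i _ hi
          rw [Finsupp.notMem_support_iff.mp hi, pow_zero]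
        rw [h3]
        simp only [mul_pow]
        rw [Finset.prod_mul_distrib]
        congr 1
        · rw [map_prod]
          exact Finset.prod_congr rfl fun i _ => by rw [map_pow]
        · have h4 := (MvPolynomial.monomial_eq (s := u) (a := (1 : ℝ)))
          rw [h4, map_one, one_mul, Finsupp.prod_fintype _ _ (fun i => pow_zero _)]
      rw [h2, ← mul_assoc, ← C_mul, C_mul_monomial, mul_one]
    rw [h1, coeff_monomial, coeff_monomial]
    split_ifs with h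
    · rw [h, mul_comm]
    · rw [mul_zero]
  | add p q hp hq =>
    rw [map_add, coeff_add, coeff_add, hp, hq]
    ring

theorem chp_scl (P : Fin M → MvPolynomial (Fin M) ℝ) (d lam : Fin M → ℝ) (j : Fin M) :
    chp P (fun i => lam i * d i) j = bind₁ (sclX lam) (chp P d j) := by
  have h1 : ∀ i : Fin M, (C (lam i * d i) * X i : MvPolynomial (Fin M) ℝ) =
      bind₁ (sclX lam) (C (d i) * X i : MvPolynomial (Fin M) ℝ) := fun i => by
    rw [map_mul (bind₁ (sclX lam)) (C (d i)) (X i), bind₁_C_right, bind₁_X_right]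
    unfold sclX
    rw [C_mul]
    ring
  unfold chp
  rw [map_add, ← h1 j, bind₁_bind₁]
  congr 2
  congr 1
  funext i
  exact h1 i

/-- the coefficients of the composed monomials at different scales -/
theorem Tm_scl (P : Fin M → MvPolynomial (Fin M) ℝ) (d lam : Fin M → ℝ) (a : Mon M DD) (b : Mon M D) :
    Tm DD (chp P fun i => lam i * d i) a b = (∏ i, lam i ^ (a.1 i : ℕ)) * Tm DD (chp P d) a b := by
  unfold Tm
  rw [Matrix.of_apply, Matrix.of_apply]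
  have h1 : bind₁ (chp P fun i => lam i * d i) b.mon = bind₁ (sclX lam) (bind₁ (chp P d) b.mon) := by
    rw [bind₁_bind₁]
    congr 1
    congr 1
    funext j
    exact chp_scl P d lam j
  rw [h1, coeff_scl]
  rfl

theorem prod_pow_le {lam : Fin M → ℝ} (h0 : ∀ i, 0 ≤ lam i) {R : ℝ} (hR : 1 ≤ R) (h : ∀ i, lam i ≤ R) (a : Mon M DD) :
    ∏ i, lam i ^ (a.1 i : ℕ) ≤ R ^ DD := by
  calc ∏ i, lam i ^ (a.1 i : ℕ) ≤ ∏ i, R ^ (a.1 i : ℕ) :=
        Finset.prod_le_prod (fun i _ => pow_nonneg (h0 i) _) fun i _ => pow_le_pow_left₀ (h0 i) (h i) _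
    _ = R ^ (∑ i, (a.1 i : ℕ)) := by rw [Finset.prod_pow_eq_pow_sum]
    _ ≤ R ^ DD := pow_le_pow_right₀ hR a.2

/-- THE FORM OF THE BOX at two scales -/
theorem gch_scl {P : Fin M → MvPolynomial (Fin M) ℝ} (tri : ∀ j, ∀ i ∈ (P j).vars, i < j) {d d' : Fin M → ℝ}
    (hd : ∀ i, 0 < d i) (hd' : ∀ i, 0 < d' i) {R : ℝ} (hR : 1 ≤ R) (h : ∀ i, d' i ≤ R * d i) {p : ℕ}
    (hP : ∀ i, (P i).totalDegree ≤ p) (hDD : D * (p + 1) ≤ DD) (v : Mon M D → ℝ) :
    v ⬝ᵥ (gch D DD P d *ᵥ v) ≤ R ^ (2 * DD) * (v ⬝ᵥ (gch D DD P d' *ᵥ v)) := by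
  have hR0 : 0 < R := by linarith
  obtain ⟨lam, hlam⟩ : ∃ lam : Fin M → ℝ, lam = fun i => d' i / d i := ⟨_, rfl⟩
  have e1 : d' = fun i => lam i * d i := by
    funext i
    rw [hlam]
    exact (div_mul_cancel₀ _ (hd i).ne').symm
  have hl0 : ∀ i, 0 ≤ lam i := fun i => by
    rw [hlam]
    exact (div_pos (hd' i) (hd i)).le
  have hlR : ∀ i, lam i ≤ R := fun i => by
    rw [hlam]
    show d' i / d i ≤ R
    rw [div_le_iff₀ (hd i)]
    exact h i
  have hT := Tm_inj (D := D) (DD := DD) tri d (fun i => (hd i).ne') hP hDD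
  have hT' := Tm_inj (D := D) (DD := DD) tri d' (fun i => (hd' i).ne') hP hDD
  have key : ∀ u : Mon M D → ℝ, (Tm (D := D) DD (chp P d') *ᵥ u) ⬝ᵥ (Tm (D := D) DD (chp P d') *ᵥ u) ≤
      R ^ (2 * DD) * ((Tm (D := D) DD (chp P d) *ᵥ u) ⬝ᵥ (Tm (D := D) DD (chp P d) *ᵥ u)) := by
    intro u
    have h1 : ∀ a, (Tm (D := D) DD (chp P d') *ᵥ u) a = (∏ i, lam i ^ (a.1 i : ℕ)) *
        (Tm (D := D) DD (chp P d) *ᵥ u) a := by
      intro a
      unfold Matrix.mulVec dotProduct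
      rw [Finset.mul_sum]
      refine Finset.sum_congr rfl fun b _ => ?_
      have h2 : Tm (D := D) DD (chp P d') a b = (∏ i, lam i ^ (a.1 i : ℕ)) * Tm DD (chp P d) a b := by
        rw [e1]
        exact Tm_scl P d lam a b
      show Tm (D := D) DD (chp P d') a b * u b = _ * (Tm (D := D) DD (chp P d) a b * u b)
      rw [h2]
      ring
    unfold dotProduct
    rw [Finset.mul_sum]
    refine Finset.sum_le_sum fun a _ => ?_
    rw [h1 a]
    have h2 := prod_pow_le (DD := DD) hl0 hR hlR a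
    have h3 : 0 ≤ ∏ i, lam i ^ (a.1 i : ℕ) := Finset.prod_nonneg fun i _ => pow_nonneg (hl0 i) _
    have h4 : (∏ i, lam i ^ (a.1 i : ℕ)) ^ 2 ≤ R ^ (2 * DD) := by
      rw [mul_comm 2 DD, pow_mul]
      exact pow_le_pow_left₀ h3 h2 2
    have h5 := mul_le_mul_of_nonneg_right h4 (mul_self_nonneg ((Tm (D := D) DD (chp P d) *ᵥ u) a))
    calc (∏ i, lam i ^ (a.1 i : ℕ)) * (Tm (D := D) DD (chp P d) *ᵥ u) a *
        ((∏ i, lam i ^ (a.1 i : ℕ)) * (Tm (D := D) DD (chp P d) *ᵥ u) a) =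
        (∏ i, lam i ^ (a.1 i : ℕ)) ^ 2 *
          ((Tm (D := D) DD (chp P d) *ᵥ u) a * (Tm (D := D) DD (chp P d) *ᵥ u) a) := by ring
      _ ≤ _ := h5
  have h6 := gri_le hT' hT (c := R ^ (2 * DD)) (by positivity) key v
  have h7 : (1 : ℝ) ≤ R ^ (2 * DD) := one_le_pow₀ hR
  unfold gch
  rw [dv_add, dv_add, Matrix.one_mulVec]
  have h8 := self_nonneg' v
  have h9 : v ⬝ᵥ v ≤ R ^ (2 * DD) * (v ⬝ᵥ v) := by nlinarith
  rw [mul_add]
  linarith

end

end Pool.Agent.Helper21.DGY
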