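import Pool.Agent.Helper21.DGY.Cnt
import Pool.Agent.Helper52.MW.Alle
import Pool.Agent.Helper49.MD.Lim

/-! LEAST CARRIERS, THEIR BOXES, DEFICIT AND VISIBILITY AS ONE APPROXIMATE PREDICATE of the finite data of a system, for a
triple `(c, c', e)` of windows and depth; moving of the triple. -/

set_option autoImplicit false

namespace Pool.Agent.Helper21.DGY

open Finset Filter Topology Matrix Pool.Agent.Helper69.RK Pool.Agent.Helper31.EC Pool.Agent.Helper31.EC.Sp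
open Pool.Agent.Helper40.EL Pool.Agent.Helper89.LX Pool.Agent.Helper84.MT Pool.Agent.Helper49.MD
open Pool.Agent.Helper36.AM Pool.Agent.Helper32.DGY
open Pool.Agent.Helper52.MW (Bfn AlF AlB)
open Pool.Agent.Helper95.VIS (rdm rC one_le_rC)
open Pool.Agent.Helper3.LF (Mon)

noncomputable section

variable {N : ℕ} {ι : Type}

/-! ### the deficit as a function of finite data -/

/-- the kind of a partition and a point -/
def KXV (N : ℕ) : FK where
  X := fun F => Setoid F.Ω × (F.Ω → Fin N → ℝ)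
  im := fun _ _ x => x

/-- the entropy of the cells of depth `e` of a point given a partition, cut at `N + 1` -/
def Vde (N : ℕ) (e : ℝ) : Bfn (KXV N) (fun _ _ => True) where
  v := fun F x => min (h (fc (Setoid.ker fun ω => cell (dlF F e) (x.2 ω)) : FL F) (fc x.1) / F.n) (N + 1)
  M := N + 1
  bd := fun S x _ => Eventually.of_forall fun k T q E => by
    rw [abs_of_nonneg]
    · exact min_le_right _ _
    · exact le_min (div_nonneg (h_nonneg _ _) (FSp.pos _).le) (by positivity)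

theorem AlF_mono {K : FK} {B : K.Pd} {V : Bfn K B} {c p p' η η' : ℝ} (hp : p ≤ p') (hη : η ≤ η') {F : FSp} {x : K.X F}
    (h : AlF V c p η F x) : AlF V c p' η' F x := fun T q hn E hE =>
  (h T q hn E (hp.trans hE)).trans (by linarith)

/-! ### the predicate -/

/-- the finite literal label -/
def flb (F : FSp) (X : Setoid F.Ω) : FLab F := ⟨(FLab.triv F).T, (FLab.triv F).p, (FLab.triv F).hn, X⟩

/-- witnesses: least carriers of two windows and their boxes -/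
structure VPd (F : FSp) (N : ℕ) where
  X : Setoid F.Ω
  X' : Setoid F.Ω
  f : FrD F.Ω N
  f' : FrD F.Ω N

instance (F : FSp) : Inhabited (VPd F N) := ⟨⟨⊥, ⊥, ⟨fun _ _ => 0, fun _ _ => 0⟩, ⟨fun _ _ => 0, fun _ _ => 0⟩⟩⟩

/-- THE PREDICATE of the triple `(c, c', e)`, up to `δ` -/
structure VPf (w : Fin N → ℝ) (ρ : ℝ) (D κ : ℕ) (c c' e : ℝ) (F : FSp) (x : FMs F.Ω N ι) (y : VPd F N) (δ : ℝ) :
    Prop where
  lk : ∀ i, h (fc y.X) ((x.lf i).win F c) ≤ δ * F.n
  lk' : ∀ i, h (fc y.X') ((x.lf i).win F c') ≤ δ * F.n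
  fr : FrP F (flb F y.X) x.Q (fun j => w j * c) y.f δ
  fr' : FrP F (flb F y.X') x.Q (fun j => w j * c') y.f' δ
  cn : h (fc y.X) (fc (kgF F (fun j => w j * c) D κ y.f.P)) ≤ δ * F.n
  cn' : h (fc y.X') (fc (kgF F (fun j => w j * c') D κ y.f'.P)) ≤ δ * F.n
  vs : h (fc y.X') (fc y.X ⊔ fc (Setoid.ker fun ω => cell (dlF F e) (y.f.X ω))) ≤ δ * F.n
  df : AlF (Vde N e) ((N - ρ) * e) δ δ F (y.X, y.f.X)

variable {w : Fin N → ℝ} {ρ : ℝ} {D κ : ℕ} {c c' e : ℝ}

theorem VPf.mono {F : FSp} {x : FMs F.Ω N ι} {y : VPd F N} {δ δ' : ℝ} (h : δ ≤ δ')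
    (hx : VPf w ρ D κ c c' e F x y δ) : VPf w ρ D κ c c' e F x y δ' := by
  have h1 : δ * F.n ≤ δ' * F.n := mul_le_mul_of_nonneg_right h F.pos.le
  exact ⟨fun i => (hx.lk i).trans h1, fun i => (hx.lk' i).trans h1, hx.fr.mono h, hx.fr'.mono h, hx.cn.trans h1,
    hx.cn'.trans h1, hx.vs.trans h1, AlF_mono h h hx.df⟩

/-- the approximate predicate -/
def vpA (w : Fin N → ℝ) (ρ : ℝ) (D κ : ℕ) (c c' e : ℝ) : AP (KM N ι) where
  P := fun F x δ => ∃ y : VPd F N, VPf w ρ D κ c c' e F x y δ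
  mono := fun _ _ _ _ h hx => hx.imp fun _ hy => hy.mono h

/-- witnesses for all `δ > 0` from approximate ones -/
theorem exists_wit {X : ℕ → Type*} [∀ k, Inhabited (X k)] {Φ : ∀ k, X k → ℝ → Prop}
    (hm : ∀ k y (δ δ' : ℝ), δ ≤ δ' → Φ k y δ → Φ k y δ')
    (h : ∀ δ : ℝ, 0 < δ → ∀ᶠ k in UF, ∃ y, Φ k y δ) : ∃ y : ∀ k, X k, ∀ δ : ℝ, 0 < δ → ∀ᶠ k in UF, Φ k (y k) δ := by
  classical
  have h1 : ∀ j : ℕ, ∀ᶠ k in UF, ∃ y, Φ k y (1 / ((j : ℝ) + 1)) := fun j => h _ (by positivity)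
  obtain ⟨J, hJ, hJ2⟩ := dia (fun j k => ∃ y, Φ k y (1 / ((j : ℝ) + 1))) h1
  refine ⟨fun k => if hk : ∃ y, Φ k y (1 / ((J k : ℝ) + 1)) then hk.choose else default, fun δ hδ => ?_⟩
  filter_upwards [hJ2, (inv_tendsto hJ).eventually (gt_mem_nhds hδ)] with k a b
  have hk := a (J k) le_rfl
  rw [dif_pos hk]
  exact hm _ _ _ _ b.le hk.choose_spec

/-! ### degrees -/

theorem FrL.deg {Ω : Type} {P : Ω → Fin N → MvPolynomial (Fin N) ℝ} (hc : 0 ≤ c) (hw : ∀ j, 1 ≤ w j)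
    (hκ : ∀ j, w j ≤ κ) (h : FrL (fun j => w j * c) P) (ω : Ω) (j : Fin N) : (P ω j).totalDegree ≤ κ := by
  refine Finset.sup_le fun a ha => ?_
  by_cases h0 : a = 0
  · rw [h0]
    simp
  · have h1 := h.2 ω j a ha h0
    rcases hc.eq_or_lt with h2 | h2
    · rw [← h2] at h1
      simp at h1
    · have h3 : (∑ i, (a i : ℝ) * (w i * c)) = (∑ i, (a i : ℝ) * w i) * c := by
        rw [Finset.sum_mul]
        exact Finset.sum_congr rfl fun i _ => by ring
      rw [h3] at h1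
      have h4 := lt_of_mul_lt_mul_right h1 h2.le
      have h5 : (∑ i, (a i : ℝ)) ≤ ∑ i, (a i : ℝ) * w i :=
        Finset.sum_le_sum fun i _ => le_mul_of_one_le_right (Nat.cast_nonneg _) (hw i)
      have h6 : ((a.sum fun _ m => m : ℕ) : ℝ) = ∑ i, (a i : ℝ) := by
        rw [Finsupp.sum_fintype _ _ (fun _ => rfl)]
        push_cast
        rfl
      have h7 : ((a.sum fun _ m => m : ℕ) : ℝ) ≤ κ := by
        rw [h6]
        exact h5.trans (h4.le.trans (hκ j))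
      exact_mod_cast h7

/-! ### moving -/

/-- the moved witnesses -/
def VPd.mv {F : FSp} (y : VPd F N) (w : Fin N → ℝ) (c c₁ c' c₁' : ℝ) : VPd F N :=
  ⟨y.X, y.X', y.f.mv (fun j => w j * c₁ - w j * c) F.n, y.f'.mv (fun j => w j * c₁' - w j * c') F.n⟩

theorem h_sup_anti {L : Type*} [PM L] (A B C C' : L) : h A (B ⊔ C') ≤ h A (B ⊔ C) + h C C' := by
  have h1 := h_triangle' A (B ⊔ C) (B ⊔ C')
  have h2 := h_sup_le B C (B ⊔ C')
  have h3 : h B (B ⊔ C') = 0 := h_zero le_sup_left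
  have h4 : h C (B ⊔ C') ≤ h C C' := h_anti le_sup_right
  linarith

theorem dlF_mul (F : FSp) (a b : ℝ) : (2 : ℝ) ^ (b * F.n) * dlF F a = dlF F (a - b) := by
  unfold dlF
  rw [← Real.rpow_add (by norm_num)]
  congr 1
  ring

theorem dlF_anti (F : FSp) {a b : ℝ} (h : a ≤ b) : dlF F b ≤ dlF F a := by
  unfold dlF
  apply Real.rpow_le_rpow_of_exponent_le (by norm_num)
  have := mul_le_mul_of_nonneg_right h F.pos.le
  linarith

/-- cells of the moved point know the cells of the point -/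
theorem cell_back {F : FSp} {x : FrD F.Ω N} {b : Fin N → ℝ} (hb : ∀ j, 0 ≤ b j) {e e₁ : ℝ} (he : e ≤ e₁) :
    h (fc (Setoid.ker fun ω => cell (dlF F e) (x.X ω)) : FL F)
      (fc (Setoid.ker fun ω => cell (dlF F e₁) ((x.mv b F.n).X ω))) ≤ 2 * N + 1 := by
  have h1 := h_cell_scl (F := F) (fun ω => (x.mv b F.n).X ω) x.X (fun j => (2 : ℝ) ^ (-(b j) * F.n)) (δ := dlF F e₁)
    (δ' := dlF F e) (R := 1) (fun j => Real.rpow_pos_of_pos (by norm_num) _) (dlF_pos' F _) (dlF_pos' F _)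
    zero_le_one (fun j => by
      rw [dlF_mul, one_mul]
      exact dlF_anti F (by linarith [hb j])) (fun ω j => by
      show x.X ω j = (2 : ℝ) ^ (-(b j) * F.n) * ((2 : ℝ) ^ (b j * F.n) * x.X ω j)
      rw [← mul_assoc, ← Real.rpow_add (by norm_num)]
      have : -(b j) * F.n + b j * F.n = 0 := by ring
      rw [this, Real.rpow_zero, one_mul])
  refine h1.trans ?_
  have h2 : Real.logb 2 ((1 : ℝ) + 2) ≤ 2 := by
    have h3 : Real.logb 2 (4 : ℝ) = 2 := by
      rw [show (4 : ℝ) = 2 ^ (2 : ℝ) by norm_num, Real.logb_rpow (by norm_num) (by norm_num)]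
    exact (Real.logb_le_logb_of_le (by norm_num) (by norm_num) (by norm_num : (1 : ℝ) + 2 ≤ 4)).trans h3.le
  have h3 := mul_le_mul_of_nonneg_left h2 (Nat.cast_nonneg N)
  linarith

/-- the cells of the moved point -/
theorem cell_forth {F : FSp} {x : FrD F.Ω N} {b : Fin N → ℝ} {η : ℝ} (hη : 0 ≤ η) (hb : ∀ j, b j ≤ η)
    {e e₁ : ℝ} (he : e₁ - e ≤ η) :
    h (fc (Setoid.ker fun ω => cell (dlF F e₁) ((x.mv b F.n).X ω)) : FL F)
      (fc (Setoid.ker fun ω => cell (dlF F e) (x.X ω))) ≤ N * (2 * η * F.n + 2) + 1 := by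
  have hn := F.pos
  have h1 := h_cell_scl (F := F) x.X (fun ω => (x.mv b F.n).X ω) (fun j => (2 : ℝ) ^ (b j * F.n)) (δ := dlF F e)
    (δ' := dlF F e₁) (R := (2 : ℝ) ^ (2 * η * F.n)) (fun j => Real.rpow_pos_of_pos (by norm_num) _) (dlF_pos' F _)
    (dlF_pos' F _) (Real.rpow_pos_of_pos (by norm_num) _).le (fun j => by
      rw [dlF_mul, dlF_mul]
      exact dlF_anti F (by linarith [hb j])) (fun ω j => rfl)
  refine h1.trans ?_
  have h2 : Real.logb 2 ((2 : ℝ) ^ (2 * η * F.n) + 2) ≤ 2 * η * F.n + 2 := by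
    have e2 : 2 * η * F.n + 2 = Real.logb 2 (2 ^ (2 * η * F.n + 2)) := by
      rw [Real.logb_rpow (by norm_num) (by norm_num)]
    rw [e2]
    apply Real.logb_le_logb_of_le (by norm_num) (by positivity)
    rw [Real.rpow_add (by norm_num)]
    have h6 : (1 : ℝ) ≤ 2 ^ (2 * η * F.n) := Real.one_le_rpow (by norm_num) (by positivity)
    norm_num
    linarith
  have h3 := mul_le_mul_of_nonneg_left h2 (Nat.cast_nonneg N)
  linarith

/-- the constant of the moving -/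
def cM (N D κ : ℕ) (ρ : ℝ) : ℝ := cK N D κ + 2 * N + |N - ρ| + 2

theorem cM_pos (N D κ : ℕ) (ρ : ℝ) : 0 < cM N D κ ρ := by
  have h1 := cK_nn N D κ
  have h2 := abs_nonneg ((N : ℝ) - ρ)
  unfold cM
  positivity

variable {S : Sp} {E : ℕ → ℕ}

/-- MOVING OF THE TRIPLE -/
theorem vp_move [Finite ι] (s : MSys S N E ι) (w1 : ∀ j, 1 ≤ w j) (hκ : ∀ j, w j ≤ κ) {c c₁ c' c₁' e e₁ η : ℝ}
    (hη : 0 < η) (h0 : 0 ≤ c) (hc : c ≤ c₁) (hc0 : c = c₁ ∨ 0 < c) (h0' : 0 ≤ c') (hc' : c' ≤ c₁')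
    (hc0' : c' = c₁' ∨ 0 < c') (he : e ≤ e₁) (d1 : ∀ j, w j * (c₁ - c) ≤ η) (d2 : ∀ j, w j * (c₁' - c') ≤ η)
    (d3 : e₁ - e ≤ η) : ∀ᶠ k in UF, ∀ (y : VPd (S.F k) N) (δ : ℝ), VPf w ρ D κ c c' e (S.F k) (ob s k) y δ →
      VPf w ρ D κ c₁ c₁' e₁ (S.F k) (ob s k) (y.mv w c c₁ c' c₁') (δ + cM N D κ ρ * η) := by
  have hw0 : ∀ j, 0 ≤ w j := fun j => zero_le_one.trans (w1 j)
  have lw : ∀ a b : ℝ, a ≤ b → ∀ᶠ k in UF, ∀ i,
      Pool.Agent.Helper31.EC.h ((s.lf i).win a k) ((s.lf i).win b k) ≤ η * (S.F k).n := by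
    intro a b hab
    rw [eventually_all]
    intro i
    filter_upwards [(show Tendsto _ _ _ from (s.lf i).win_mono hab).eventually (gt_mem_nhds hη)] with k hk
    rw [div_lt_iff₀ (S.F k).pos] at hk
    exact hk.le
  have hsq := Pool.Agent.Helper95.VIS.sqrt_tendsto S (rC (Mon N D))
  filter_upwards [lw c c₁ hc, lw c' c₁' hc', hsq.eventually (gt_mem_nhds hη),
    S.lim.eventually (eventually_ge_atTop ((2 * N + 1) / η))] with k a1 a2 a3 a4 y δ hy
  have hn := (S.F k).pos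
  have a5 : 2 * N + 1 ≤ η * (S.F k).n := by
    rw [div_le_iff₀ hη] at a4
    linarith
  have a6 : (1 : ℝ) ≤ η * (S.F k).n := by
    have : (0 : ℝ) ≤ 2 * N := by positivity
    linarith
  have hsq' : rC (Mon N D) * (1 + Real.sqrt (S.F k).n) ≤ η * (S.F k).n := by
    rw [div_lt_iff₀ hn] at a3
    exact a3.le
  have k0 := cK_nn N D κ
  have k1 := abs_nonneg ((N : ℝ) - ρ)
  have hM1 : (1 : ℝ) ≤ cM N D κ ρ := by
    unfold cM
    have : (0 : ℝ) ≤ 2 * N := by positivity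
    linarith
  have hM2 : cK N D κ + 1 ≤ cM N D κ ρ := by
    unfold cM
    have : (0 : ℝ) ≤ 2 * N := by positivity
    linarith
  have hηn : 0 ≤ η * (S.F k).n := by linarith
  have g1 : η * (S.F k).n ≤ cM N D κ ρ * η * (S.F k).n := by
    have := mul_le_mul_of_nonneg_right hM1 hηn
    linarith
  have g2 : cK N D κ * η * (S.F k).n + 1 ≤ cM N D κ ρ * η * (S.F k).n := by
    have := mul_le_mul_of_nonneg_right hM2 hηn
    nlinarith
  have mvL : ∀ {c c₁ : ℝ} {P : (S.F k).Ω → Fin N → MvPolynomial (Fin N) ℝ}, 0 ≤ c → c ≤ c₁ → (c = c₁ ∨ 0 < c) →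
      FrL (fun j => w j * c) P → FrL (fun j => w j * c₁) P := by
    intro c c₁ P _ hc hc0 hL
    rcases hc0 with h | h
    · rw [← h]
      exact hL
    · exact FrL.mv h (h.trans_le hc) hL
  have frm : ∀ {c c₁ : ℝ} {X : Setoid (S.F k).Ω} {f : FrD (S.F k).Ω N}, 0 ≤ c → c ≤ c₁ → (c = c₁ ∨ 0 < c) →
      (∀ j, w j * (c₁ - c) ≤ η) → FrP (S.F k) (flb (S.F k) X) (ob s k).Q (fun j => w j * c) f δ →
      FrP (S.F k) (flb (S.F k) X) (ob s k).Q (fun j => w j * c₁) (f.mv (fun j => w j * c₁ - w j * c) (S.F k).n)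
        (δ + cM N D κ ρ * η) := by
    intro c c₁ X f h0 hc hc0 hd hF
    have h1 := hF.move (La' := fun j => w j * c₁) (η := η) (fun j => by
      have := hd j
      linarith) hη.le (mvL h0 hc hc0 hF.1)
    exact h1.mono (by nlinarith)
  have cmv : ∀ {c c₁ : ℝ} {X : Setoid (S.F k).Ω} {f : FrD (S.F k).Ω N}, 0 ≤ c → c ≤ c₁ → (∀ j, w j * (c₁ - c) ≤ η) →
      FrL (fun j => w j * c) f.P →
      Pool.Agent.Helper31.EC.h (fc X) (fc (kgF (S.F k) (fun j => w j * c) D κ f.P)) ≤ δ * (S.F k).n →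
      Pool.Agent.Helper31.EC.h (fc X) (fc (kgF (S.F k) (fun j => w j * c₁) D κ f.P)) ≤
        (δ + cM N D κ ρ * η) * (S.F k).n := by
    intro c c₁ X f h0 hc hd hL hX
    have h1 := h_triangle' (fc X : FL (S.F k)) (fc (kgF (S.F k) (fun j => w j * c) D κ f.P))
      (fc (kgF (S.F k) (fun j => w j * c₁) D κ f.P))
    have h2 := kgF_move (F := S.F k) (D := D) (La := fun j => w j * c) (La' := fun j => w j * c₁) (P := f.P) hL.1
      (FrL.deg h0 w1 hκ hL) hη (fun j => by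
        rw [abs_of_nonneg]
        · have := hd j
          linarith
        · have := mul_le_mul_of_nonneg_left hc (hw0 j)
          linarith) hsq'
    rw [add_mul]
    linarith
  refine ⟨fun i => ?_, fun i => ?_, frm h0 hc hc0 d1 hy.fr, frm h0' hc' hc0' d2 hy.fr', cmv h0 hc d1 hy.fr.1 hy.cn,
    cmv h0' hc' d2 hy.fr'.1 hy.cn', ?_, ?_⟩
  · have h1 := h_triangle' (fc y.X : FL (S.F k)) ((s.lf i).win c k) ((s.lf i).win c₁ k)
    have h2 : Pool.Agent.Helper31.EC.h (fc y.X) ((s.lf i).win c k) ≤ δ * (S.F k).n := hy.lk i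
    have h3 := a1 i
    show Pool.Agent.Helper31.EC.h (fc y.X) ((s.lf i).win c₁ k) ≤ _
    rw [add_mul]
    linarith
  · have h1 := h_triangle' (fc y.X' : FL (S.F k)) ((s.lf i).win c' k) ((s.lf i).win c₁' k)
    have h2 : Pool.Agent.Helper31.EC.h (fc y.X') ((s.lf i).win c' k) ≤ δ * (S.F k).n := hy.lk' i
    have h3 := a2 i
    show Pool.Agent.Helper31.EC.h (fc y.X') ((s.lf i).win c₁' k) ≤ _
    rw [add_mul]
    linarith
  · have h1 := h_sup_anti (fc y.X' : FL (S.F k)) (fc y.X) (fc (Setoid.ker fun ω => cell (dlF (S.F k) e) (y.f.X ω)))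
      (fc (Setoid.ker fun ω => cell (dlF (S.F k) e₁) ((y.f.mv (fun j => w j * c₁ - w j * c) (S.F k).n).X ω)))
    have h2 := cell_back (F := S.F k) (x := y.f) (b := fun j => w j * c₁ - w j * c) (fun j => by
      have := mul_le_mul_of_nonneg_left hc (hw0 j)
      linarith) he
    have h3 := hy.vs
    show Pool.Agent.Helper31.EC.h (fc y.X') (fc y.X ⊔ fc (Setoid.ker fun ω => cell (dlF (S.F k) e₁)
      ((y.f.mv (fun j => w j * c₁ - w j * c) (S.F k).n).X ω))) ≤ _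
    rw [add_mul]
    linarith
  · intro T q hT A hA
    have hA' : δ ≤ T.pb A := le_trans (by
      have := mul_pos (cM_pos N D κ ρ) hη
      linarith) hA
    have h1 := hy.df T q hT A hA'
    obtain ⟨G, hG⟩ : ∃ G : FSp, G = FSp.im q A := ⟨_, rfl⟩
    have h2 := cell_forth (F := FSp.im q A) (x := y.f) (b := fun j => w j * c₁ - w j * c) hη.le (fun j => by
      have := d1 j
      linarith) d3
    have h3 := h_triangle' (fc (Setoid.ker fun ω => cell (dlF (FSp.im q A) e₁)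
        ((y.f.mv (fun j => w j * c₁ - w j * c) (FSp.im q A).n).X ω)) : FL (FSp.im q A))
      (fc (Setoid.ker fun ω => cell (dlF (FSp.im q A) e) (y.f.X ω))) (fc y.X)
    have hn' : (FSp.im q A).n = (S.F k).n := rfl
    have hnp := (FSp.im q A).pos
    show min (Pool.Agent.Helper31.EC.h (fc (Setoid.ker fun ω => cell (dlF (FSp.im q A) e₁)
        ((y.f.mv (fun j => w j * c₁ - w j * c) (FSp.im q A).n).X ω)) : FL (FSp.im q A)) (fc y.X) / (FSp.im q A).n)
      ((N : ℝ) + 1) ≤ (N - ρ) * e₁ + (δ + cM N D κ ρ * η)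
    have h4 : min (Pool.Agent.Helper31.EC.h (fc (Setoid.ker fun ω => cell (dlF (FSp.im q A) e) (y.f.X ω)) :
        FL (FSp.im q A)) (fc y.X) / (FSp.im q A).n) ((N : ℝ) + 1) ≤ (N - ρ) * e + δ := h1
    have h5 : (N * (2 * η * (FSp.im q A).n + 2) + 1) / (FSp.im q A).n ≤ 2 * N * η + η := by
      rw [div_le_iff₀ hnp]
      rw [hn']
      nlinarith
    have h6 : (N - ρ) * e ≤ (N - ρ) * e₁ + |(N : ℝ) - ρ| * η := by
      have h7 : ((N : ℝ) - ρ) * (e - e₁) ≤ |(N : ℝ) - ρ| * η := by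
        refine (le_abs_self _).trans ?_
        rw [abs_mul]
        apply mul_le_mul_of_nonneg_left _ (abs_nonneg _)
        rw [abs_sub_comm, abs_of_nonneg (by linarith)]
        exact d3
      linarith
    have h8 : min (Pool.Agent.Helper31.EC.h (fc (Setoid.ker fun ω => cell (dlF (FSp.im q A) e₁)
        ((y.f.mv (fun j => w j * c₁ - w j * c) (FSp.im q A).n).X ω)) : FL (FSp.im q A)) (fc y.X) / (FSp.im q A).n)
        ((N : ℝ) + 1) ≤ min (Pool.Agent.Helper31.EC.h (fc (Setoid.ker fun ω => cell (dlF (FSp.im q A) e) (y.f.X ω)) :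
        FL (FSp.im q A)) (fc y.X) / (FSp.im q A).n) ((N : ℝ) + 1) + (2 * N * η + η) := by
      have h9 : Pool.Agent.Helper31.EC.h (fc (Setoid.ker fun ω => cell (dlF (FSp.im q A) e₁)
          ((y.f.mv (fun j => w j * c₁ - w j * c) (FSp.im q A).n).X ω)) : FL (FSp.im q A)) (fc y.X) / (FSp.im q A).n ≤
          Pool.Agent.Helper31.EC.h (fc (Setoid.ker fun ω => cell (dlF (FSp.im q A) e) (y.f.X ω)) :
            FL (FSp.im q A)) (fc y.X) / (FSp.im q A).n + (2 * N * η + η) := by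
        refine le_trans ?_ (add_le_add le_rfl h5)
        rw [← add_div]
        apply div_le_div_of_nonneg_right _ hnp.le
        exact h3.trans ((add_le_add h2 le_rfl).trans_eq (add_comm _ _))
      have h10 : 0 ≤ 2 * N * η + η := by positivity
      rcases le_total (Pool.Agent.Helper31.EC.h (fc (Setoid.ker fun ω => cell (dlF (FSp.im q A) e) (y.f.X ω)) :
        FL (FSp.im q A)) (fc y.X) / (FSp.im q A).n) ((N : ℝ) + 1) with h11 | h11
      · rw [min_eq_left h11]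
        exact (min_le_left _ _).trans h9
      · rw [min_eq_right h11]
        exact (min_le_right _ _).trans (by linarith)
    have h12 : 2 * N * η + η + |(N : ℝ) - ρ| * η ≤ cM N D κ ρ * η := by
      unfold cM
      have := mul_nonneg k0 hη.le
      nlinarith
    linarith

end

end Pool.Agent.Helper21.DGY
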