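import Pool.Agent.Helper21.DGY.Vp
import Pool.Agent.Helper29.MX.Bas
import Pool.Agent.Helper32.DGY.Frl
import Pool.Agent.Helper99.MX.Frx

/-! FROM EXACT DATA TO THE APPROXIMATE PREDICATE AND BACK; real triples from rational triples. -/

set_option autoImplicit false

namespace Pool.Agent.Helper21.DGY

open Finset Filter Topology Matrix Pool.Agent.Helper69.RK Pool.Agent.Helper31.EC Pool.Agent.Helper31.EC.Sp
open Pool.Agent.Helper40.EL Pool.Agent.Helper89.LX Pool.Agent.Helper84.MT Pool.Agent.Helper49.MD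
open Pool.Agent.Helper36.AM Pool.Agent.Helper32.DGY Pool.Agent.Helper29.MX Pool.Agent.Helper26.BXD
open Pool.Agent.Helper52.MW (Bfn AlF AlB)
open Pool.Agent.Helper95.VIS (rdm rC one_le_rC)
open Pool.Agent.Helper99.MX (gfx)
open Pool.Agent.Helper3.LF (Mon)

noncomputable section

variable {N : ℕ} {ι : Type} {S : Sp} {E : ℕ → ℕ} {w : Fin N → ℝ} {ρ : ℝ} {D κ : ℕ} {c c' e : ℝ}

/-! ### null sequences -/

theorem nul_iff {f : ℕ → ℝ} (h0 : ∀ k, 0 ≤ f k) : Nul S f ↔ ∀ δ : ℝ, 0 < δ → ∀ᶠ k in UF, f k ≤ δ * (S.F k).n := by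
  constructor
  · intro h δ hδ
    filter_upwards [(show Tendsto _ _ _ from h).eventually (gt_mem_nhds hδ)] with k hk
    rw [div_lt_iff₀ (S.F k).pos] at hk
    exact hk.le
  · intro h
    show Tendsto _ _ _
    rw [Metric.tendsto_nhds]
    intro ε hε
    filter_upwards [h (ε / 2) (by linarith)] with k hk
    rw [Real.dist_eq, sub_zero, abs_of_nonneg (div_nonneg (h0 k) (S.F k).pos.le), div_lt_iff₀ (S.F k).pos]
    have := mul_pos hε (S.F k).pos
    linarith

/-- the coordinates of a frame of a literal label, functions on the space -/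
def ptF {Q : S.VV N} {X : Rsl S} {La : Fin N → ℝ} (f : Frm Q (Lab.ofZ X) La) (k : ℕ) : (S.F k).Ω → Fin N → ℝ := f.X.v k

/-- the charts of a frame of a literal label, functions on the space -/
def chF {Q : S.VV N} {X : Rsl S} {La : Fin N → ℝ} (f : Frm Q (Lab.ofZ X) La) (k : ℕ) :
    (S.F k).Ω → Fin N → MvPolynomial (Fin N) ℝ := f.P k

/-- the roundings of the form of the box, in terms of the charts -/
theorem gfF_ev {Q : S.VV N} {X : Rsl S} {La : Fin N → ℝ} (f : Frm Q (Lab.ofZ X) La) (D κ : ℕ) : ∀ᶠ k in UF,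
    gfF (S.F k) La D κ (chF f k) = gfx f D κ k := by
  filter_upwards [fP_ev f] with k hk
  funext ω
  have h1 : fP f k ω = f.P k ω := hk ω
  have h2 : gfx f D κ k ω = gch D (D * (κ + 1)) (fP f k ω) (scl La S k) := rfl
  rw [h2, h1]
  rfl

theorem kgF_ev {Q : S.VV N} {X : Rsl S} {La : Fin N → ℝ} (f : Frm Q (Lab.ofZ X) La) (D κ : ℕ) : ∀ᶠ k in UF,
    kgF (S.F k) La D κ (chF f k) = Setoid.ker fun ω => rdm (S.F k).n (gfx f D κ k ω) := by
  filter_upwards [gfF_ev f D κ] with k hk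
  unfold kgF
  rw [hk]

/-! ### exact data -/

/-- EXACT DATA of the triple: `X`, `X'` literal labels with frames, known to the roundings of the forms of their boxes;
visibility; deficit on all events -/
structure VPe (s : MSys S N E ι) (w : Fin N → ℝ) (ρ : ℝ) (D κ : ℕ) (c c' e : ℝ) (X X' : Rsl S)
    (f : Frm s.Q (Lab.ofZ X) fun j => w j * c) (f' : Frm s.Q (Lab.ofZ X') fun j => w j * c') : Prop where
  tl : TLb s c (Lab.ofZ X)
  tl' : TLb s c' (Lab.ofZ X')
  cn : Nul S fun k => h (fc (X k)) (fc (Setoid.ker fun ω => rdm (S.F k).n (gfx f D κ k ω)) : FL (S.F k))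
  cn' : Nul S fun k => h (fc (X' k)) (fc (Setoid.ker fun ω => rdm (S.F k).n (gfx f' D κ k ω)) : FL (S.F k))
  vs : Nul S fun k => h (fc (X' k)) (fc (X k) ⊔ fc (Setoid.ker fun ω => cell (dlF (S.F k) e) (ptF f k ω)) : FL (S.F k))
  df : AlB (Vde N e) ((N - ρ) * e) (K := KXV N) (S := S) fun k => (X k, ptF f k)

/-- exact data have the approximate predicate -/
theorem VPe.pd [Finite ι] {s : MSys S N E ι} {X X' : Rsl S} {f : Frm s.Q (Lab.ofZ X) fun j => w j * c}
    {f' : Frm s.Q (Lab.ofZ X') fun j => w j * c'} (h : VPe s w ρ D κ c c' e X X' f f') :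
    (vpA w ρ D κ c c' e).pd 0 S (ob s) := by
  intro δ hδ
  have l1 : ∀ᶠ k in UF, ∀ i, Pool.Agent.Helper31.EC.h (fc (X k)) ((s.lf i).win c k) ≤ δ * (S.F k).n := by
    rw [eventually_all]
    intro i
    filter_upwards [(nul_iff fun k => (Lab.ofZ X k).leak_nonneg _).mp (h.tl i) δ hδ] with k hk
    rw [Lab.ofZ_leak] at hk
    exact hk
  have l2 : ∀ᶠ k in UF, ∀ i, Pool.Agent.Helper31.EC.h (fc (X' k)) ((s.lf i).win c' k) ≤ δ * (S.F k).n := by
    rw [eventually_all]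
    intro i
    filter_upwards [(nul_iff fun k => (Lab.ofZ X' k).leak_nonneg _).mp (h.tl' i) δ hδ] with k hk
    rw [Lab.ofZ_leak] at hk
    exact hk
  have u1 := h.df.unif trivial hδ hδ
  filter_upwards [l1, l2, FrP_of f hδ, FrP_of f' hδ, (nul_iff fun k => h_nonneg _ _).mp h.cn δ hδ,
    (nul_iff fun k => h_nonneg _ _).mp h.cn' δ hδ, (nul_iff fun k => h_nonneg _ _).mp h.vs δ hδ, u1,
    kgF_ev f D κ, kgF_ev f' D κ] with k a1 a2 a3 a4 a5 a6 a7 a8 b1 b2
  refine ⟨⟨X k, X' k, ⟨ptF f k, chF f k⟩, ⟨ptF f' k, chF f' k⟩⟩, a1, a2, a3, a4, ?_, ?_, a7, a8⟩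
  · show Pool.Agent.Helper31.EC.h (fc (X k)) (fc (kgF (S.F k) (fun j => w j * c) D κ (chF f k))) ≤ _
    rw [b1]
    exact a5
  · show Pool.Agent.Helper31.EC.h (fc (X' k)) (fc (kgF (S.F k) (fun j => w j * c') D κ (chF f' k))) ≤ _
    rw [b2]
    exact a6

/-- EXACT DATA FROM THE APPROXIMATE PREDICATE -/
theorem vpe_of_pd [Finite ι] {s : MSys S N E ι} (h : (vpA w ρ D κ c c' e).pd 0 S (ob s)) :
    ∃ (X X' : Rsl S) (f : Frm s.Q (Lab.ofZ X) fun j => w j * c) (f' : Frm s.Q (Lab.ofZ X') fun j => w j * c'),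
      VPe s w ρ D κ c c' e X X' f f' := by
  obtain ⟨y, hy⟩ := exists_wit (X := fun k => VPd (S.F k) N)
    (Φ := fun k y δ => VPf w ρ D κ c c' e (S.F k) (ob s k) y δ) (fun k y δ δ' hδ hx => hx.mono hδ) h
  obtain ⟨f, hf1, hf2, -⟩ := frm_of (S := S) (Q := s.Q) (l := Lab.ofZ fun k => (y k).X) (La := fun j => w j * c)
    (fun k => (y k).f) (fun δ hδ => (hy δ hδ).mono fun k hk => hk.fr)
  obtain ⟨f', hf1', hf2', -⟩ := frm_of (S := S) (Q := s.Q) (l := Lab.ofZ fun k => (y k).X') (La := fun j => w j * c')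
    (fun k => (y k).f') (fun δ hδ => (hy δ hδ).mono fun k hk => hk.fr')
  refine ⟨fun k => (y k).X, fun k => (y k).X', f, f', fun i => ?_, fun i => ?_, ?_, ?_, ?_, ?_⟩
  · refine (nul_iff fun k => (Lab.ofZ (fun k => (y k).X) k).leak_nonneg _).mpr fun δ hδ => ?_
    filter_upwards [hy δ hδ] with k hk
    rw [Lab.ofZ_leak]
    exact hk.lk i
  · refine (nul_iff fun k => (Lab.ofZ (fun k => (y k).X') k).leak_nonneg _).mpr fun δ hδ => ?_
    filter_upwards [hy δ hδ] with k hk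
    rw [Lab.ofZ_leak]
    exact hk.lk' i
  · refine (nul_iff fun k => h_nonneg _ _).mpr fun δ hδ => ?_
    filter_upwards [hy δ hδ, kgF_ev f D κ, hf2] with k a b d
    have d' : chF f k = (y k).f.P := d
    rw [← b, d']
    exact a.cn
  · refine (nul_iff fun k => h_nonneg _ _).mpr fun δ hδ => ?_
    filter_upwards [hy δ hδ, kgF_ev f' D κ, hf2'] with k a b d
    have d' : chF f' k = (y k).f'.P := d
    rw [← b, d']
    exact a.cn'
  · refine (nul_iff fun k => h_nonneg _ _).mpr fun δ hδ => ?_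
    filter_upwards [hy δ hδ] with k a
    have e1 : ptF f k = (y k).f.X := hf1 k
    rw [e1]
    exact a.vs
  · refine AlB.of_unif trivial fun i η hη => ?_
    have hm : 0 < min (1 / ((i : ℝ) + 1)) η := lt_min (by positivity) hη
    filter_upwards [hy _ hm] with k hk
    have h1 := AlF_mono (min_le_left _ _) (min_le_right _ _) hk.df
    have e1 : ptF f k = (y k).f.X := hf1 k
    rw [e1]
    exact h1

/-! ### real triples -/

/-- admissible triples -/
structure Adm (w : Fin N → ℝ) (c c' e : ℝ) : Prop where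
  c0 : 0 ≤ c
  cc : c ≤ c'
  c1 : ∀ i, w i * c' < 1
  e0 : 0 < e
  ce : ∀ i, w i * c + e ≤ 1
  d : ∀ i, w i * (c' - c) < e

/-- a rational number between, close to the right end -/
theorem exists_ratl {a b : ℝ} (h : a < b) {η : ℝ} (hη : 0 < η) : ∃ q : ℚ, a < q ∧ (q : ℝ) < b ∧ b - q < η := by
  obtain ⟨q, hq, hq'⟩ := exists_rat_btwn (show max a (b - η) < b from max_lt h (by linarith))
  exact ⟨q, (le_max_left _ _).trans_lt hq, hq', by
    have := (le_max_right _ _).trans_lt hq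
    linarith⟩

/-- REAL TRIPLES from rational ones -/
theorem vp_real [Finite ι] (s : MSys S N E ι) (w1 : ∀ j, 1 ≤ w j) (hκ : ∀ j, w j ≤ κ)
    (hs : ∀ q q' b : ℚ, Adm w (q : ℝ) (q' : ℝ) (b : ℝ) → (vpA w ρ D κ (q : ℝ) (q' : ℝ) (b : ℝ)).pd 0 S (ob s))
    (hA : Adm w c c' e) : (vpA w ρ D κ c c' e).pd 0 S (ob s) := by
  intro δ hδ
  have hM := cM_pos N D κ ρ
  obtain ⟨η, hη, hη2⟩ : ∃ η : ℝ, 0 < η ∧ cM N D κ ρ * η ≤ δ / 2 := ⟨δ / (2 * cM N D κ ρ), by positivity, by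
    rw [mul_div_assoc', div_le_div_iff₀ (by positivity) (by norm_num)]
    linarith⟩
  -- the gap of the depth
  obtain ⟨g, hg0, hg⟩ : ∃ g : ℝ, 0 < g ∧ ∀ i, w i * (c' - c) + g ≤ e := by
    classical
    have h1 : ∀ i, 0 < e - w i * (c' - c) := fun i => by linarith [hA.d i]
    by_cases hN : Nonempty (Fin N)
    · obtain ⟨i0, -, h2⟩ := Finset.exists_min_image (Finset.univ : Finset (Fin N)) (fun i => e - w i * (c' - c))
        Finset.univ_nonempty
      exact ⟨_, h1 i0, fun i => by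
        have := h2 i (Finset.mem_univ i)
        linarith⟩
    · exact ⟨1, one_pos, fun i => absurd ⟨i⟩ hN⟩
  obtain ⟨η', hη', hη1, hη3⟩ : ∃ η' : ℝ, 0 < η' ∧ (κ + 1 : ℝ) * η' ≤ η ∧ (κ + 2 : ℝ) * η' ≤ g / 2 :=
    ⟨min (η / (κ + 1)) (g / (2 * (κ + 2))), lt_min (by positivity) (by positivity), by
      have := mul_le_mul_of_nonneg_left (min_le_left (η / (κ + 1)) (g / (2 * (κ + 2)))) (show (0 : ℝ) ≤ κ + 1 by positivity)
      refine this.trans (le_of_eq ?_)
      field_simp, by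
      have := mul_le_mul_of_nonneg_left (min_le_right (η / (κ + 1)) (g / (2 * (κ + 2))))
        (show (0 : ℝ) ≤ κ + 2 by positivity)
      refine this.trans (le_of_eq ?_)
      field_simp⟩
  have hκ0 : (0 : ℝ) ≤ κ := Nat.cast_nonneg κ
  have hηle : η' ≤ η := by nlinarith
  have hw0 : ∀ j, 0 ≤ w j := fun j => zero_le_one.trans (w1 j)
  have hwm : ∀ j (x : ℝ), 0 ≤ x → x ≤ η' → w j * x ≤ κ * η' := fun j x hx hx' =>
    mul_le_mul (hκ j) hx' hx hκ0
  -- the rational triple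
  obtain ⟨b, hb0, hbe, hbη⟩ := exists_ratl hA.e0 hη'
  obtain ⟨q, hq0, hqc, hqη, hqd⟩ : ∃ q : ℚ, (0 : ℝ) ≤ q ∧ (q : ℝ) ≤ c ∧ c - q < η' ∧ ((q : ℝ) = c ∨ 0 < (q : ℝ)) := by
    rcases hA.c0.eq_or_lt with h | h
    · exact ⟨0, by rw [Rat.cast_zero], by rw [Rat.cast_zero]; exact hA.c0, by rw [Rat.cast_zero, ← h]; linarith,
        Or.inl (by rw [Rat.cast_zero]; exact h)⟩
    · obtain ⟨q, h1, h2, h3⟩ := exists_ratl h hη'
      exact ⟨q, h1.le, h2.le, h3, Or.inr h1⟩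
  obtain ⟨q', hqq, hqc', hqη', hqd'⟩ : ∃ q' : ℚ, (q : ℝ) ≤ q' ∧ (q' : ℝ) ≤ c' ∧ c' - q' < η' ∧
      ((q' : ℝ) = c' ∨ 0 < (q' : ℝ)) := by
    rcases (hqc.trans hA.cc).eq_or_lt with h | h
    · exact ⟨q, le_rfl, h.le, by rw [h]; linarith, Or.inl h⟩
    · obtain ⟨q', h1, h2, h3⟩ := exists_ratl h hη'
      exact ⟨q', h1.le, h2.le, h3, Or.inr (hq0.trans_lt h1)⟩
  have hadm : Adm w (q : ℝ) (q' : ℝ) (b : ℝ) := by
    refine ⟨hq0, hqq, fun i => (mul_le_mul_of_nonneg_left hqc' (hw0 i)).trans_lt (hA.c1 i), hb0, fun i => ?_,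
      fun i => ?_⟩
    · have h1 := mul_le_mul_of_nonneg_left hqc (hw0 i)
      have h2 := hA.ce i
      linarith
    · have h1 : w i * (q' - q) ≤ w i * (c' - c) + w i * (c - q) := by
        have := mul_le_mul_of_nonneg_left hqc' (hw0 i)
        nlinarith
      have h2 := hwm i (c - q) (by linarith) hqη.le
      have h3 := hg i
      have h4 : (κ + 2 : ℝ) * η' = κ * η' + 2 * η' := by ring
      nlinarith
  have h1 := hs q q' b hadm (δ / 2) (by linarith)
  have h2 := vp_move (ρ := ρ) (D := D) (κ := κ) s w1 hκ (c := (q : ℝ)) (c₁ := c) (c' := (q' : ℝ)) (c₁' := c')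
    (e := (b : ℝ)) (e₁ := e) hη hq0 hqc hqd (hq0.trans hqq) hqc' hqd' hbe.le (fun j => by
      have h3 := hwm j (c - q) (by linarith) hqη.le
      have : (κ + 1 : ℝ) * η' = κ * η' + η' := by ring
      linarith) (fun j => by
      have h3 := hwm j (c' - q') (by linarith) hqη'.le
      have : (κ + 1 : ℝ) * η' = κ * η' + η' := by ring
      linarith) (by linarith)
  filter_upwards [h1, h2] with k a b'
  obtain ⟨y, hy⟩ := a
  exact ⟨_, (b' y _ hy).mono (by linarith)⟩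

end

end Pool.Agent.Helper21.DGY
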